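import Pool.Agent.X302.C3.Sums

/-!
# The simple Anosov domains are not maximal domains of discontinuity

Let `Γ` be the fundamental group of a closed surface of genus at least two. For all `0 < k < d`, the
simple `k`-Anosov domains in the character variety of `Γ` in `SL(d, ℂ)` are contained in *one* domain of
discontinuity `Ω` of the mapping class group: the set of the classes near which the function
`log |λ₁ / λ_d| (ρ γ)` is at least a constant times the length of `γ`, for all simple closed curves `γ`
(it is also at most a constant times the length, so a mapping class which does not move a compact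
subset of `Ω` off itself changes the lengths of the simple closed curves only by a bounded factor).

Let `d ≥ 4`, and let `ι` be the Fuchsian representation. The representation `ι ⊕ 1 ⊕ ⋯ ⊕ 1` is simple
`1`-Anosov, and no representation with the same characteristic polynomials is simple `k`-Anosov for
some `k` with `1 < k < d - 1`; the representation `ι ⊕ ι ⊕ 1 ⊕ ⋯ ⊕ 1` is simple `2`-Anosov, and no
representation with the same characteristic polynomials is simple `1`-Anosov or simple
`(d - 1)`-Anosov. So each simple `k`-Anosov domain, `0 < k < d`, is properly contained in `Ω`, and is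
not maximal.
-/

set_option autoImplicit false

namespace Pool.Agent.Results.MP_c30652_gt.UnionOfDomains

open Pool.Agent.X302.C3 Topology Matrix
open scoped MatrixGroups

/-- `Ω` is a domain of discontinuity: it is open and invariant under the automorphisms of `Γ`, and
for a compact set `K` of representations with classes in `Ω` the automorphisms `φ` with
`φ K ∩ K ≠ ∅` (in the character variety) form finitely many classes modulo inner automorphisms. -/
def IsDomain (D : SurfaceGroup) {n : Type} [Fintype n] [DecidableEq n]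
    (Ω : Set (CharVar D.Γ n)) : Prop :=
  IsOpen Ω ∧ (∀ φ : D.Γ ≃* D.Γ, ∀ x ∈ Ω, precomp φ x ∈ Ω) ∧
    ∀ K : Set (Rep D.Γ n), IsCompact K → (∀ ρ ∈ K, Rep.cls ρ ∈ Ω) →
      ∃ F : Set (MulAut D.Γ), F.Finite ∧ ∀ φ : MulAut D.Γ,
        (∃ ρ ∈ K, ∃ ρ' ∈ K, precomp φ (Rep.cls ρ) = Rep.cls ρ') →
          ∃ ψ ∈ F, ∃ δ, φ = ψ * MulAut.conj δ

/-- The simple `k`-Anosov domain: the classes which have a neighbourhood whose classes contain simple
`k`-Anosov representations with the same constants. -/
def AnosovDomain (D : SurfaceGroup) (n : Type) [Fintype n] [DecidableEq n] (k : ℕ) :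
    Set (CharVar D.Γ n) :=
  {x | ∃ V ∈ 𝓝 x, ∃ C c : ℝ, 0 < c ∧ ∀ y ∈ V, ∃ ρ : Rep D.Γ n,
    Rep.cls ρ = y ∧ SimpleAnosov D k C c ρ}

theorem anosov_subset (D : SurfaceGroup) (n : Type) [Fintype n] [DecidableEq n] {k : ℕ}
    (hk0 : 0 < k) (hk : k < Fintype.card n) : AnosovDomain D n k ⊆ Omega D.S D.simple := by
  rintro x ⟨V, hV, C, c, hc, h⟩
  obtain ⟨a, ha, hax⟩ := D.axis
  refine ⟨V, hV, c * a, mul_pos hc ha, fun y hy γ hγ => ?_⟩
  obtain ⟨ρ, rfl, P, N, H⟩ := h y hy
  obtain ⟨g, T, hT, haT, hg⟩ := hax γ hγ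
  calc c * a * clen D.S γ = c * (a * clen D.S γ) := mul_assoc _ _ _
    _ ≤ c * T := mul_le_mul_of_nonneg_left haT hc.le
    _ ≤ Len (Rep.cls ρ) γ := mul_le_Len H hk0 hk hγ hT hg

theorem isDomain (D : SurfaceGroup) (n : Type) [Fintype n] [DecidableEq n] :
    IsDomain D (Omega D.S D.simple : Set (CharVar D.Γ n)) :=
  ⟨isOpen_Omega _ _, fun φ _ hx => precomp_mem_Omega D.finite D.closure_eq D.aut φ hx,
    fun _ hK hKO => properlyDiscontinuous D.finite D.closure_eq D.aut D.proper hK hKO⟩

/-- All simple `k`-Anosov domains, `0 < k < d`, are contained in one domain of discontinuity. If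
`d ≥ 4` and `0 < k < d`, there is a representation which is simple `j`-Anosov for some `0 < j < d`,
such that no representation with the same class in the character variety is simple `k`-Anosov. -/
theorem result (D : SurfaceGroup) (n : Type) [Fintype n] [DecidableEq n] :
    (∃ Ω : Set (CharVar D.Γ n), IsDomain D Ω ∧
      ∀ k, 0 < k → k < Fintype.card n → AnosovDomain D n k ⊆ Ω) ∧
    (4 ≤ Fintype.card n → ∀ k, 0 < k → k < Fintype.card n →
      ∃ (ρ₀ : Rep D.Γ n) (j : ℕ) (C c : ℝ), 0 < j ∧ j < Fintype.card n ∧ 0 < c ∧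
        SimpleAnosov D j C c ρ₀ ∧
        (∀ ρ : Rep D.Γ n, Rep.cls ρ = Rep.cls ρ₀ → ∀ C' c' : ℝ, 0 < c' →
          ¬ SimpleAnosov D k C' c' ρ) ∧
        Rep.cls ρ₀ ∉ AnosovDomain D n k) := by
  refine ⟨⟨_, isDomain D n, fun k hk0 hk => anosov_subset D n hk0 hk⟩, fun hd k hk0 hk => ?_⟩
  obtain ⟨ρ₀, j, hj, hA, h⟩ := exists_rep D n hd hk0 hk
  refine ⟨ρ₀, j, 1, 1 / 2, by omega, by omega, by norm_num, hA, h, ?_⟩
  rintro ⟨V, hV, C, c, hc, hV'⟩
  obtain ⟨ρ, hρ, hρA⟩ := hV' _ (mem_of_mem_nhds hV)
  exact h ρ hρ C c hc hρA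

end Pool.Agent.Results.MP_c30652_gt.UnionOfDomains
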